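import Pool.Agent.H31.LV.Basic
import Pool.Agent.H31.LV.Targets

/-!
# From the coefficients of a difference to the coefficients (row wDD)
-/

set_option autoImplicit false

open Finset MeasureTheory

namespace Pool.Agent.H5.LVP

open Pool.Agent.H24.CL Pool.Agent.H24.LV Pool.Agent.H31.LV

/-- the quotient of factorials -/
def Fq (k j : ℕ) : ℕ := k.factorial / j.factorial

theorem Fq_mul {k j : ℕ} (h : j ≤ k) : Fq k j * j.factorial = k.factorial :=
  Nat.div_mul_cancel (Nat.factorial_dvd_factorial h)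

theorem Fq_le (k j : ℕ) : Fq k j ≤ k.factorial := Nat.div_le_self _ _

theorem Fq_succ {k j : ℕ} (h : j < k) : Fq k (j + 1) * (j + 1) = Fq k j := by
  have h1 := Fq_mul (k := k) (j := j + 1) h
  have h2 := Fq_mul (k := k) (j := j) h.le
  rw [Nat.factorial_succ] at h1
  have h3 : Fq k (j + 1) * (j + 1) * j.factorial = Fq k j * j.factorial := by
    rw [h2, ← h1, mul_assoc]
  exact Nat.eq_of_mul_eq_mul_right (Nat.factorial_pos j) h3

theorem Fq_dvd {k j l : ℕ} (h1 : j ≤ l) (h2 : l ≤ k) :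
    ∃ w : ℕ, w ≤ k.factorial ∧ Fq k j = Fq k l * w := by
  refine ⟨l.factorial / j.factorial,
    (Nat.div_le_self _ _).trans (Nat.factorial_le h2), ?_⟩
  have e1 := Fq_mul (k := k) (j := j) (h1.trans h2)
  have e2 := Fq_mul (k := k) (j := l) h2
  have e3 : l.factorial / j.factorial * j.factorial = l.factorial :=
    Nat.div_mul_cancel (Nat.factorial_dvd_factorial h1)
  have e4 : Fq k j * j.factorial = Fq k l * (l.factorial / j.factorial) * j.factorial := by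
    rw [e1, mul_assoc, e3, e2]
  exact Nat.eq_of_mul_eq_mul_right (Nat.factorial_pos j) e4

theorem step (k q g : ℕ) (Z : ℝ) (c : ℕ → ℝ) (E C : ℝ) (hC : 0 ≤ C) (hg : (g : ℝ) ≤ Z)
    (hZ : 1 ≤ Z) (hE : 0 ≤ E)
    (hd : ∀ i < k - 1, ∃ a : ℤ, |q * dif k g c i - a| ≤ E / Z ^ (i + 1)) (i : ℕ)
    (hi : i + 1 < k)
    (hl : ∀ l, i + 1 < l → l < k → ∃ a : ℤ, |(Fq k l : ℝ) * q * g * c l - a| ≤ C * E / Z ^ l) :
    ∃ a : ℤ, |(Fq k (i + 1) : ℝ) * q * g * c (i + 1) - a| ≤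
      ((k.factorial : ℝ) + C * (k * 2 ^ k * k.factorial)) * E / Z ^ (i + 1) := by
  obtain ⟨a0, ha0⟩ := hd i (by omega)
  have hl' : ∀ l, ∃ a : ℤ, i + 1 < l → l < k →
      |(Fq k l : ℝ) * q * g * c l - a| ≤ C * E / Z ^ l := by
    intro l
    by_cases h : i + 1 < l ∧ l < k
    · obtain ⟨a, ha⟩ := hl l h.1 h.2
      exact ⟨a, fun _ _ => ha⟩
    · exact ⟨0, fun h1 h2 => absurd ⟨h1, h2⟩ h⟩
  choose a ha using hl'
  have hw' : ∀ l, ∃ w : ℕ, i + 2 ≤ l → l ≤ k →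
      w ≤ k.factorial ∧ Fq k (i + 2) = Fq k l * w := by
    intro l
    by_cases h : i + 2 ≤ l ∧ l ≤ k
    · obtain ⟨w, hw⟩ := Fq_dvd h.1 h.2
      exact ⟨w, fun _ _ => hw⟩
    · exact ⟨0, fun h1 h2 => absurd ⟨h1, h2⟩ h⟩
  choose w hw using hw'
  have hZ0 : 0 < Z := by linarith
  refine ⟨(Fq k (i + 2) : ℤ) * a0 - ∑ l ∈ Ico (i + 2) k,
    ((l + 1).choose (i + 1) : ℤ) * (g : ℤ) ^ (l - (i + 1)) * (w l : ℤ) * a l, ?_⟩
  have hid : (Fq k (i + 1) : ℝ) * q * g * c (i + 1) -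
      (((Fq k (i + 2) : ℤ) * a0 - ∑ l ∈ Ico (i + 2) k,
        ((l + 1).choose (i + 1) : ℤ) * (g : ℤ) ^ (l - (i + 1)) * (w l : ℤ) * a l : ℤ) : ℝ) =
      (Fq k (i + 2) : ℝ) * (q * dif k g c i - a0) - ∑ l ∈ Ico (i + 2) k,
        (((l + 1).choose (i + 1) : ℝ) * (g : ℝ) ^ (l - (i + 1)) * (w l : ℝ)) *
          ((Fq k l : ℝ) * q * g * c l - a l) := by
    have h1 : dif k g c i = ((i + 2 : ℕ) : ℝ) * g * c (i + 1) + ∑ l ∈ Ico (i + 2) k,
        ((l + 1).choose (i + 1) : ℝ) * (g : ℝ) ^ (l - i) * c l := by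
      unfold dif
      rw [Finset.sum_eq_sum_Ico_succ_bot hi]
      congr 1
      have e1 : i + 1 - i = 1 := by omega
      rw [e1, pow_one, Nat.choose_succ_self_right]
    have h2 : (Fq k (i + 1) : ℝ) = (Fq k (i + 2) : ℝ) * ((i + 2 : ℕ) : ℝ) := by
      rw [← Nat.cast_mul]
      congr 1
      exact (Fq_succ hi).symm
    have h3 : ∑ l ∈ Ico (i + 2) k,
        (((l + 1).choose (i + 1) : ℝ) * (g : ℝ) ^ (l - (i + 1)) * (w l : ℝ)) *
          ((Fq k l : ℝ) * q * g * c l - a l) = (Fq k (i + 2) : ℝ) * q * (∑ l ∈ Ico (i + 2) k,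
        ((l + 1).choose (i + 1) : ℝ) * (g : ℝ) ^ (l - i) * c l) - ∑ l ∈ Ico (i + 2) k,
        ((l + 1).choose (i + 1) : ℝ) * (g : ℝ) ^ (l - (i + 1)) * (w l : ℝ) * a l := by
      rw [Finset.mul_sum, ← Finset.sum_sub_distrib]
      refine Finset.sum_congr rfl fun l hl2 => ?_
      obtain ⟨h4, h5⟩ := Finset.mem_Ico.1 hl2
      have h6 := (hw l h4 h5.le).2
      have h7 : (Fq k (i + 2) : ℝ) = (Fq k l : ℝ) * (w l : ℝ) := by
        rw [← Nat.cast_mul, h6]
      have h8 : (g : ℝ) ^ (l - i) = (g : ℝ) ^ (l - (i + 1)) * g := by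
        rw [← pow_succ]
        congr 1
        omega
      rw [h7, h8]
      ring
    rw [h3, h1, h2]
    push_cast
    ring
  rw [hid]
  have hg0 : (0 : ℝ) ≤ g := Nat.cast_nonneg _
  have hF : (Fq k (i + 2) : ℝ) ≤ k.factorial := by exact_mod_cast Fq_le _ _
  have b1 : |(Fq k (i + 2) : ℝ) * (q * dif k g c i - a0)| ≤
      (k.factorial : ℝ) * (E / Z ^ (i + 1)) := by
    rw [abs_mul, abs_of_nonneg (Nat.cast_nonneg _)]
    exact mul_le_mul hF ha0 (abs_nonneg _) (Nat.cast_nonneg _)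
  have b2 : |∑ l ∈ Ico (i + 2) k,
        (((l + 1).choose (i + 1) : ℝ) * (g : ℝ) ^ (l - (i + 1)) * (w l : ℝ)) *
          ((Fq k l : ℝ) * q * g * c l - a l)| ≤
      (k : ℝ) * ((2 : ℝ) ^ k * k.factorial * (C * E / Z ^ (i + 1))) := by
    refine (Finset.abs_sum_le_sum_abs _ _).trans ?_
    have h9 : ∀ l ∈ Ico (i + 2) k,
        |(((l + 1).choose (i + 1) : ℝ) * (g : ℝ) ^ (l - (i + 1)) * (w l : ℝ)) *
          ((Fq k l : ℝ) * q * g * c l - a l)| ≤
        (2 : ℝ) ^ k * k.factorial * (C * E / Z ^ (i + 1)) := by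
      intro l hl2
      obtain ⟨h4, h5⟩ := Finset.mem_Ico.1 hl2
      have h6 := ha l (by omega) h5
      have h7 : ((l + 1).choose (i + 1) : ℝ) ≤ 2 ^ k := by
        have e1 : (l + 1).choose (i + 1) ≤ 2 ^ (l + 1) := Nat.choose_le_two_pow _ _
        have e2 : 2 ^ (l + 1) ≤ 2 ^ k := Nat.pow_le_pow_right (by norm_num) (by omega)
        exact_mod_cast e1.trans e2
      have h8 : (w l : ℝ) ≤ k.factorial := by exact_mod_cast (hw l h4 h5.le).1
      have h10 : (g : ℝ) ^ (l - (i + 1)) ≤ Z ^ (l - (i + 1)) := pow_le_pow_left₀ hg0 hg _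
      have h11 : Z ^ (l - (i + 1)) * (C * E / Z ^ l) = C * E / Z ^ (i + 1) := by
        have e3 : Z ^ l = Z ^ (l - (i + 1)) * Z ^ (i + 1) := by
          rw [← pow_add]
          congr 1
          omega
        rw [e3]
        have e4 : Z ^ (l - (i + 1)) ≠ 0 := (pow_pos hZ0 _).ne'
        have e5 : Z ^ (i + 1) ≠ 0 := (pow_pos hZ0 _).ne'
        field_simp
      rw [abs_mul, abs_of_nonneg (by positivity)]
      calc ((l + 1).choose (i + 1) : ℝ) * (g : ℝ) ^ (l - (i + 1)) * (w l : ℝ) *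
            |(Fq k l : ℝ) * q * g * c l - a l|
          ≤ (2 : ℝ) ^ k * Z ^ (l - (i + 1)) * k.factorial * (C * E / Z ^ l) := by
            refine mul_le_mul (mul_le_mul (mul_le_mul h7 h10 (by positivity) (by positivity)) h8
              (by positivity) (by positivity)) h6 (abs_nonneg _) (by positivity)
        _ = (2 : ℝ) ^ k * k.factorial * (Z ^ (l - (i + 1)) * (C * E / Z ^ l)) := by ring
        _ = _ := by rw [h11]
    refine (Finset.sum_le_card_nsmul _ _ _ h9).trans ?_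
    rw [nsmul_eq_mul, Nat.card_Ico]
    have h12 : ((k - (i + 2) : ℕ) : ℝ) ≤ k := by
      exact_mod_cast Nat.sub_le _ _
    exact mul_le_mul_of_nonneg_right h12 (by positivity)
  refine (abs_sub _ _).trans ((add_le_add b1 b2).trans (le_of_eq ?_))
  ring

theorem pf_wDD : W_DD := by
  intro k
  have key : ∀ m : ℕ, ∃ C : ℝ, 0 ≤ C ∧ ∀ (q g : ℕ) (Z : ℝ) (c : ℕ → ℝ) (E : ℝ), (g : ℝ) ≤ Z →
      1 ≤ Z → 0 ≤ E → (∀ i < k - 1, ∃ a : ℤ, |q * dif k g c i - a| ≤ E / Z ^ (i + 1)) →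
      ∀ j, 1 ≤ j → j < k → k ≤ j + m →
        ∃ a : ℤ, |(Fq k j : ℝ) * q * g * c j - a| ≤ C * E / Z ^ j := by
    intro m
    induction m with
    | zero =>
      refine ⟨0, le_rfl, fun q g Z c E _ _ _ _ j _ h1 h2 => ?_⟩
      omega
    | succ m ih =>
      obtain ⟨C, hC, h⟩ := ih
      refine ⟨C + ((k.factorial : ℝ) + C * (k * 2 ^ k * k.factorial)), by positivity, ?_⟩
      intro q g Z c E hg hZ hE hd j hj1 hjk hm
      have hZ0 : 0 < Z := by linarith
      have hq : 0 ≤ E / Z ^ j := by positivity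
      have hk0 : 0 ≤ (k.factorial : ℝ) + C * (k * 2 ^ k * k.factorial) := by positivity
      by_cases h1 : k ≤ j + m
      · obtain ⟨a, ha⟩ := h q g Z c E hg hZ hE hd j hj1 hjk h1
        refine ⟨a, ha.trans ?_⟩
        rw [mul_div_assoc, mul_div_assoc]
        exact mul_le_mul_of_nonneg_right (by linarith) hq
      · obtain ⟨i, rfl⟩ : ∃ i, j = i + 1 := ⟨j - 1, by omega⟩
        obtain ⟨a, ha⟩ := step k q g Z c E C hC hg hZ hE hd i hjk
          (fun l h2 h3 => h q g Z c E hg hZ hE hd l (by omega) h3 (by omega))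
        refine ⟨a, ha.trans ?_⟩
        rw [mul_div_assoc, mul_div_assoc]
        exact mul_le_mul_of_nonneg_right (by linarith) hq
  obtain ⟨C, hC, h⟩ := key k
  refine ⟨k.factorial * C + 1, by
    have : 0 ≤ (k.factorial : ℝ) * C := by positivity
    linarith, ?_⟩
  intro q g Z c E hg hZ hE hd j hj1 hjk
  have hZ0 : 0 < Z := by linarith
  have hq : 0 ≤ E / Z ^ j := by positivity
  obtain ⟨a, ha⟩ := h q g Z c E hg hZ hE hd j hj1 hjk (by omega)
  refine ⟨(j.factorial : ℤ) * a, ?_⟩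
  have h1 : ((Nat.factorial k * q * g : ℕ) : ℝ) * c j - (((j.factorial : ℤ) * a : ℤ) : ℝ) =
      (j.factorial : ℝ) * ((Fq k j : ℝ) * q * g * c j - a) := by
    have h2 : (k.factorial : ℝ) = (Fq k j : ℝ) * j.factorial := by
      rw [← Nat.cast_mul, Fq_mul hjk.le]
    push_cast
    rw [h2]
    ring
  rw [h1, abs_mul, abs_of_nonneg (Nat.cast_nonneg _)]
  have h3 : (j.factorial : ℝ) ≤ k.factorial := by exact_mod_cast Nat.factorial_le hjk.le
  calc (j.factorial : ℝ) * |(Fq k j : ℝ) * q * g * c j - a|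
      ≤ k.factorial * (C * E / Z ^ j) := mul_le_mul h3 ha (abs_nonneg _) (Nat.cast_nonneg _)
    _ = k.factorial * C * (E / Z ^ j) := by ring
    _ ≤ (k.factorial * C + 1) * (E / Z ^ j) := mul_le_mul_of_nonneg_right (by linarith) hq
    _ = _ := by ring

end Pool.Agent.H5.LVP
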