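import Pool.Agent.H31.LV.Basic
import Pool.Agent.H31.LV.Targets

set_option autoImplicit false

open Finset MeasureTheory

namespace Pool.Agent.H5.LVP

open Pool.Agent.H24.CL Pool.Agent.H24.LV Pool.Agent.H31.LV

theorem pf_wDW (hWI : W_WI) (hER : W_ER) (hRU : W_RU) : E_DW := by
  intro k hk
  obtain ⟨C1, hC1, h1⟩ := hWI k
  obtain ⟨C2, hC2, h2⟩ := hER k (by omega)
  have hC1sq : C1 ≤ C1 ^ 2 := by nlinarith
  have hC1sq' : C1 ^ 2 ≤ C2 * C1 ^ 2 := by nlinarith [sq_nonneg C1]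
  refine ⟨C1 + 2, C1 / 2 + 1, 2 * C2 * C1 ^ 2, by linarith, by linarith, by nlinarith, ?_⟩
  intro M N w hM hN hw
  have hMC : C1 ≤ M := by nlinarith
  have hM1 : 1 ≤ M := le_trans hC1 hMC
  have hM0 : 0 < M := by linarith
  have hN1' : (1 : ℝ) ≤ (N : ℝ) := le_trans (Real.one_le_rpow hM1 (by linarith)) hN
  have hN1 : 1 ≤ N := by exact_mod_cast hN1'
  have hN0 : (0 : ℝ) < (N : ℝ) := by linarith
  obtain ⟨c, hc⟩ := ex_Lft w
  obtain ⟨δ, hδ⟩ : ∃ δ : ℝ, δ = M ^ (-(1 / 2 : ℝ)) := ⟨_, rfl⟩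
  rw [← hδ] at hw
  have hδ0 : 0 < δ := by rw [hδ]; exact Real.rpow_pos_of_pos hM0 _
  have hδ1 : δ ≤ 1 := by
    rw [hδ]
    exact Real.rpow_le_one_of_one_le_of_nonpos hM1 (by norm_num)
  have hδC : δ ^ (-C1) = M ^ (C1 / 2) := by
    rw [hδ, ← Real.rpow_mul hM0.le]
    congr 1
    ring
  have hδ2 : δ ^ 2 = 1 / M := by
    rw [hδ, ← Real.rpow_natCast, ← Real.rpow_mul hM0.le]
    rw [show (-(1 / 2 : ℝ) * ((2 : ℕ) : ℝ)) = -1 by norm_num, Real.rpow_neg_one, one_div]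
  have hu : δ * N ≤ ‖∑ n ∈ Ico 0 N, ee (pl k c n)‖ := by
    have h3 := hw
    rw [u_eq hc N, norm_mul, norm_div, norm_one, Complex.norm_natCast] at h3
    rw [← Finset.range_eq_Ico]
    calc δ * N ≤ (1 / (N : ℝ) * ‖∑ n ∈ range N, ee (pl k c n)‖) * N :=
          mul_le_mul_of_nonneg_right h3 hN0.le
      _ = ‖∑ n ∈ range N, ee (pl k c n)‖ := by field_simp
  obtain ⟨q, hq1, hqQ, ha⟩ := h1 N 0 N c δ hN1 (Nat.zero_le _) le_rfl hδ0 hδ1 hu
  rw [hδC] at hqQ ha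
  obtain ⟨Q, hQ⟩ : ∃ Q : ℝ, Q = C1 * M ^ (C1 / 2) := ⟨_, rfl⟩
  rw [← hQ] at hqQ ha
  have hq1' : (1 : ℝ) ≤ (q : ℝ) := by exact_mod_cast hq1
  have hq0 : (0 : ℝ) < (q : ℝ) := by linarith
  have hQ1 : 1 ≤ Q := le_trans hq1' hqQ
  choose! a ha' using ha
  have hw1 : ∀ i : Fin k, w i =
      ((((a i.val : ℤ) : ℝ) / q + (c i.val - (a i.val : ℝ) / q) : ℝ) : UnitAddCircle) := by
    intro i
    rw [hc i]
    congr 1
    ring
  have hη : ∀ i : Fin k, |c i.val - (a i.val : ℝ) / q| ≤ Q / (N : ℝ) ^ (i.val + 1) := by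
    intro i
    have h3 : c i.val - (a i.val : ℝ) / q = (q * c i.val - a i.val) / q := by
      field_simp
    rw [h3, abs_div, abs_of_pos hq0]
    exact le_trans (div_le_self (abs_nonneg _) hq1') (ha' i.val i.isLt)
  obtain ⟨ξ, hξ, hV⟩ := h2 q N (fun i => a i.val) (fun i => c i.val - (a i.val : ℝ) / q) w Q
    hq1 hN1 hQ1 hw1 hη
  obtain ⟨q', f', hq'1, hq'q, hff, hred, hVF⟩ := hRU k q (fun i => a i.val) hq1
  have hQR : Q ≤ M ^ (C1 / 2 + 1) := by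
    rw [Real.rpow_add hM0, Real.rpow_one, hQ, mul_comm]
    exact mul_le_mul_of_nonneg_left hMC (Real.rpow_nonneg hM0.le _)
  have hQ2 : Q ^ 2 = C1 ^ 2 * M ^ C1 := by
    rw [hQ, mul_pow]
    congr 1
    rw [← Real.rpow_natCast, ← Real.rpow_mul hM0.le]
    congr 1
    push_cast
    ring
  have herr : C2 * q * Q / N ≤ 1 / (2 * M) := by
    have h3 : C2 * q * Q ≤ C2 * Q ^ 2 := by
      have : (q : ℝ) * Q ≤ Q ^ 2 := by
        rw [pow_two]
        exact mul_le_mul_of_nonneg_right hqQ (by linarith)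
      nlinarith
    have h4 : 2 * M * (C2 * Q ^ 2) ≤ N := by
      refine le_trans ?_ hN
      rw [hQ2, show C1 + 2 = C1 + 1 + 1 by ring, Real.rpow_add hM0, Real.rpow_add hM0,
        Real.rpow_one]
      have h5 : 0 ≤ M ^ C1 * M := mul_nonneg (Real.rpow_nonneg hM0.le _) hM0.le
      calc 2 * M * (C2 * (C1 ^ 2 * M ^ C1)) = (2 * C2 * C1 ^ 2) * (M ^ C1 * M) := by ring
        _ ≤ M * (M ^ C1 * M) := mul_le_mul_of_nonneg_right hM h5
        _ = M ^ C1 * M * M := by ring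
    rw [div_le_div_iff₀ hN0 (by linarith), one_mul]
    nlinarith
  have hmain : 1 / (2 * M) ≤ VF q (fun i => a i.val) (N : ℝ)
      (fun i : Fin k => c i.val - (a i.val : ℝ) / q) 0 ξ := by
    have h3 : 1 / M ≤ ‖u N w‖ ^ 2 := by
      rw [← hδ2]
      exact pow_le_pow_left₀ hδ0.le hw 2
    have h4 : 1 / M = 1 / (2 * M) + 1 / (2 * M) := by
      field_simp
      norm_num
    linarith
  refine ⟨q', f', fun i => c i.val - (a i.val : ℝ) / q, 0, ξ, hq'1, ?_, ?_, hred, ?_,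
    by norm_num, le_rfl, hξ, ?_⟩
  · have : (q' : ℝ) ≤ (q : ℝ) := by exact_mod_cast hq'q
    linarith
  · intro i hi
    rw [hw1 i, ← hff i hi]
  · intro i hi
    refine le_trans (hη i) ?_
    rw [Real.rpow_neg hN0.le, div_eq_mul_inv]
    have h3 : (N : ℝ) ^ ((i.val : ℝ) + 1) = (N : ℝ) ^ (i.val + 1) := by
      rw [← Real.rpow_natCast]
      push_cast
      rfl
    rw [h3]
    exact mul_le_mul_of_nonneg_right hQR (by positivity)
  · rw [← hVF]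
    exact hmain

end Pool.Agent.H5.LVP
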